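import Mathlib

/-!
# Infinitely many `n` with every `n - 2^k` squarefree

Proof idea.  Let `Q` be the product of the odd primes `p ≤ y` and look at the odd multiples
`n = Q (2 j + 1) < 2 ^ (8 y)` of `Q`.  For `k ≥ 1` the number `n - 2 ^ k` is odd and prime to every
odd prime `p ≤ y`.  For each prime `p > y` and each `k < 8 y` at most `M / p² + 1` of the `M`
values of `j` give `p² ∣ n - 2 ^ k`; since the primes have density zero, the sum of these counts
is smaller than `M / 2` when `y` is large.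
-/

set_option autoImplicit false

open Finset

namespace Pool.Agent.Results.MP_fcd74d_nt.InfinitelyManyGood

/-- `π(x) ≤ δ x` for large `x`. -/
lemma primeCounting_le_mul (δ : ℝ) (hδ : 0 < δ) :
    ∃ y₀ : ℕ, ∀ n : ℕ, y₀ ≤ n → (Nat.primeCounting n : ℝ) ≤ δ * n := by
  have h1 := Chebyshev.eventually_primeCounting_le (ε := 1) one_pos
  have h2 : ∀ᶠ x : ℝ in Filter.atTop, (Real.log 4 + 1) / δ ≤ Real.log x :=
    Real.tendsto_log_atTop.eventually_ge_atTop _
  obtain ⟨X, hX⟩ := Filter.eventually_atTop.mp (h1.and (h2.and (Filter.eventually_ge_atTop (2:ℝ))))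
  refine ⟨⌈X⌉₊, fun n hn => ?_⟩
  have hn' : X ≤ (n : ℝ) := (Nat.le_ceil X).trans (by exact_mod_cast hn)
  obtain ⟨h3, h4, h5⟩ := hX n hn'
  rw [Nat.floor_natCast] at h3
  have hlog : 0 < Real.log n := Real.log_pos (by linarith)
  refine h3.trans ?_
  rw [div_le_iff₀ hlog]
  rw [div_le_iff₀ hδ] at h4
  have hn0 : (0:ℝ) ≤ n := by positivity
  nlinarith

/-- the primes `p` with `a < p ≤ b` -/
def prs (a b : ℕ) : Finset ℕ := (Ioc a b).filter Nat.Prime

lemma card_prs_le (a b : ℕ) : (prs a b).card ≤ Nat.primeCounting b := by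
  rw [Nat.primeCounting, Nat.primeCounting', Nat.count_eq_card_filter_range]
  apply card_le_card
  intro p hp
  simp only [prs, mem_filter, mem_Ioc, mem_range] at hp ⊢
  exact ⟨by omega, hp.2⟩

/-- dyadic bound for the sum of `1 / p²` -/
lemma sum_sq_le {δ : ℝ} (hδ : 0 < δ) {y : ℕ} (hy : 1 ≤ y)
    (h : ∀ n : ℕ, y ≤ n → (Nat.primeCounting n : ℝ) ≤ δ * n) (L : ℕ) :
    ∑ p ∈ prs y (2 ^ L * y), (1 : ℝ) / (p : ℝ) ^ 2 ≤ 4 * δ / y * (1 - 1 / 2 ^ L) := by
  have hy0 : (0 : ℝ) < y := by exact_mod_cast hy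
  induction L with
  | zero => simp [prs]
  | succ L ih =>
    have h1 : prs y (2 ^ (L + 1) * y) = prs y (2 ^ L * y) ∪ prs (2 ^ L * y) (2 ^ (L + 1) * y) := by
      have e1 : y ≤ 2 ^ L * y := Nat.le_mul_of_pos_left y (by positivity)
      have e2 : 2 ^ L * y ≤ 2 ^ (L + 1) * y :=
        Nat.mul_le_mul_right y (Nat.pow_le_pow_right (by norm_num) (by omega))
      ext p
      simp only [prs, mem_filter, mem_Ioc, mem_union]
      constructor
      · rintro ⟨⟨h1, h2⟩, h3⟩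
        by_cases h4 : p ≤ 2 ^ L * y
        · exact Or.inl ⟨⟨h1, h4⟩, h3⟩
        · exact Or.inr ⟨⟨by omega, h2⟩, h3⟩
      · rintro (⟨⟨h1, h2⟩, h3⟩ | ⟨⟨h1, h2⟩, h3⟩)
        · exact ⟨⟨h1, by omega⟩, h3⟩
        · exact ⟨⟨by omega, h2⟩, h3⟩
    have h2 : ∑ p ∈ prs (2 ^ L * y) (2 ^ (L + 1) * y), (1 : ℝ) / (p : ℝ) ^ 2 ≤
        2 * δ / y * (1 / 2 ^ L) := by
      have e1 : ∀ p ∈ prs (2 ^ L * y) (2 ^ (L + 1) * y),
          (1 : ℝ) / (p : ℝ) ^ 2 ≤ 1 / ((2 : ℝ) ^ L * y) ^ 2 := by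
        intro p hp
        simp only [prs, mem_filter, mem_Ioc] at hp
        have : ((2 : ℝ) ^ L * y) ≤ p := by exact_mod_cast hp.1.1.le
        have h0 : (0 : ℝ) < (2 : ℝ) ^ L * y := by positivity
        apply one_div_le_one_div_of_le (by positivity)
        exact pow_le_pow_left₀ h0.le this 2
      have e2 := sum_le_card_nsmul _ _ _ e1
      refine e2.trans ?_
      rw [nsmul_eq_mul]
      have e3 : ((prs (2 ^ L * y) (2 ^ (L + 1) * y)).card : ℝ) ≤ δ * ((2 ^ (L + 1) * y : ℕ) : ℝ) := by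
        refine le_trans (by exact_mod_cast card_prs_le _ _) (h _ ?_)
        exact Nat.le_mul_of_pos_left y (by positivity)
      push_cast at e3
      have h0 : (0 : ℝ) < (2 : ℝ) ^ L := by positivity
      calc _ ≤ δ * (2 ^ (L + 1) * y) * (1 / ((2 : ℝ) ^ L * y) ^ 2) := by
            apply mul_le_mul_of_nonneg_right e3 (by positivity)
        _ = _ := by field_simp; ring
    have h3 : Disjoint (prs y (2 ^ L * y)) (prs (2 ^ L * y) (2 ^ (L + 1) * y)) := by
      rw [Finset.disjoint_left]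
      intro p hp hq
      simp only [prs, mem_filter, mem_Ioc] at hp hq
      omega
    rw [h1, sum_union h3]
    have h4 : 4 * δ / y * (1 - 1 / 2 ^ L) + 2 * δ / y * (1 / 2 ^ L)
        = 4 * δ / y * (1 - 1 / 2 ^ (L + 1)) := by
      rw [pow_succ]
      field_simp
      ring
    linarith

/-- a set of `j < M` with pairwise congruent elements modulo `d` has at most `M / d + 1` elements -/
lemma card_le_of_cong (T : Finset ℕ) (M d : ℕ) (hT : ∀ j ∈ T, j < M)
    (hc : ∀ i ∈ T, ∀ j ∈ T, i % d = j % d) : T.card ≤ M / d + 1 := by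
  have h : T.card ≤ (range (M / d + 1)).card := by
    apply card_le_card_of_injOn (fun j => j / d)
    · intro j hj
      have := hT j hj
      simp only [coe_range, Set.mem_Iio]
      exact Nat.lt_succ_of_le (Nat.div_le_div_right this.le)
    · intro i hi j hj hij
      have h1 := hc i hi j hj
      have h2 : i / d = j / d := hij
      rw [← Nat.div_add_mod i d, ← Nat.div_add_mod j d, h1, h2]
  simpa using h

/-- the product of the odd primes up to `y` -/
def Q (y : ℕ) : ℕ := ∏ p ∈ (Nat.primesLE y).erase 2, p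

lemma Q_pos (y : ℕ) : 0 < Q y := by
  apply prod_pos
  intro p hp
  rw [mem_erase, Nat.mem_primesLE] at hp
  exact hp.2.2.pos

lemma Q_le (y : ℕ) : Q y ≤ 4 ^ y := by
  refine le_trans ?_ (primorial_le_four_pow y)
  rw [primorial_eq_prod_primesLE]
  apply prod_le_prod_of_subset_of_one_le'
  · exact erase_subset _ _
  · intro p hp _
    rw [Nat.mem_primesLE] at hp
    exact hp.2.one_le

lemma dvd_Q {y p : ℕ} (hp : p.Prime) (hy : p ≤ y) (h2 : p ≠ 2) : p ∣ Q y := by
  apply dvd_prod_of_mem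
  rw [mem_erase, Nat.mem_primesLE]
  exact ⟨h2, hy, hp⟩

lemma odd_Q (y : ℕ) : Odd (Q y) := by
  unfold Q
  apply Finset.prod_induction _ (fun n => Odd n)
  · intro a b ha hb
    exact ha.mul hb
  · exact odd_one
  · intro p hp
    rw [mem_erase, Nat.mem_primesLE] at hp
    exact hp.2.2.odd_of_ne_two hp.1

lemma coprime_Q {y p : ℕ} (hp : p.Prime) (hy : y < p) : Nat.Coprime p (Q y) := by
  unfold Q
  apply Nat.Coprime.prod_right
  intro q hq
  rw [mem_erase, Nat.mem_primesLE] at hq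
  exact (Nat.coprime_primes hp hq.2.2).mpr (by omega)

/-- the property in the question -/
def Good (n : ℕ) : Prop := ∀ k : ℕ, 1 ≤ k → 2 ^ k < n → Squarefree (n - 2 ^ k)

/-- `j` is killed by the prime `p` and the exponent `k` -/
def Bad (y p k j : ℕ) : Prop := 2 ^ k < Q y * (2 * j + 1) ∧ p ^ 2 ∣ Q y * (2 * j + 1) - 2 ^ k

open Classical in
lemma card_bad_le {y p : ℕ} (hp : p.Prime) (hy : y < p) (hp2 : p ≠ 2) (k M : ℕ) :
    ((range M).filter (fun j => Bad y p k j)).card ≤ M / p ^ 2 + 1 := by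
  apply card_le_of_cong
  · intro j hj
    rw [mem_filter, mem_range] at hj
    exact hj.1
  · intro i hi j hj
    rw [mem_filter, mem_range] at hi hj
    obtain ⟨_, hi1, hi2⟩ := hi
    obtain ⟨_, hj1, hj2⟩ := hj
    have e1 : Q y * (2 * i + 1) ≡ 2 ^ k [MOD p ^ 2] :=
      ((Nat.modEq_iff_dvd' hi1.le).mpr hi2).symm
    have e2 : Q y * (2 * j + 1) ≡ 2 ^ k [MOD p ^ 2] :=
      ((Nat.modEq_iff_dvd' hj1.le).mpr hj2).symm
    have e3 := e1.trans e2.symm
    have c1 : Nat.gcd (p ^ 2) (Q y) = 1 := (coprime_Q hp hy).pow_left 2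
    have e4 := Nat.ModEq.cancel_left_of_coprime c1 e3
    have e5 := Nat.ModEq.add_right_cancel' 1 e4
    have c2 : Nat.gcd (p ^ 2) 2 = 1 :=
      ((Nat.coprime_primes hp Nat.prime_two).mpr hp2).pow_left 2
    exact Nat.ModEq.cancel_left_of_coprime c2 e5

/-- if `Q (2 j + 1)` is not good then `j` is killed by a prime `p > y` and some `k` -/
lemma exists_bad {y j t : ℕ} (hlt : Q y * (2 * j + 1) ≤ 2 ^ (2 * t))
    (h : ¬ Good (Q y * (2 * j + 1))) :
    ∃ k ∈ range (2 * t), ∃ p ∈ prs y (2 ^ t), p ≠ 2 ∧ Bad y p k j := by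
  unfold Good at h
  push Not at h
  obtain ⟨k, hk1, hk2, hk3⟩ := h
  rw [Nat.squarefree_iff_prime_squarefree] at hk3
  push Not at hk3
  obtain ⟨p, hp, hpd⟩ := hk3
  set n := Q y * (2 * j + 1) with hn
  have hnodd : Odd n := (odd_Q y).mul ⟨j, rfl⟩
  have hpow : Even (2 ^ k) := Nat.even_pow.mpr ⟨even_two, by omega⟩
  have hodd : Odd (n - 2 ^ k) := Nat.Odd.sub_even hk2.le hnodd hpow
  have hp2 : p ≠ 2 := by
    rintro rfl
    have : 2 ∣ n - 2 ^ k := dvd_trans ⟨2, rfl⟩ hpd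
    exact (Nat.not_even_iff_odd.mpr hodd) (even_iff_two_dvd.mpr this)
  have hpy : y < p := by
    by_contra hle
    push Not at hle
    have h1 : p ∣ n := (dvd_Q hp hle hp2).mul_right _
    have h2 : p ∣ n - 2 ^ k := dvd_trans ⟨p, rfl⟩ hpd
    have h3 : p ∣ 2 ^ k := by
      have := Nat.dvd_sub h1 h2
      rwa [Nat.sub_sub_self hk2.le] at this
    have h4 := hp.dvd_of_dvd_pow h3
    exact hp2 ((Nat.prime_dvd_prime_iff_eq hp Nat.prime_two).mp h4)
  have hkt : k < 2 * t := by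
    have : 2 ^ k < 2 ^ (2 * t) := hk2.trans_le hlt
    exact (Nat.pow_lt_pow_iff_right (by norm_num)).mp this
  have hpt : p ≤ 2 ^ t := by
    have h1 : p * p ≤ n - 2 ^ k := Nat.le_of_dvd (by omega) hpd
    have h2 : p * p < 2 ^ t * 2 ^ t := by
      calc p * p ≤ n - 2 ^ k := h1
        _ < n := Nat.sub_lt (lt_of_le_of_lt (Nat.zero_le _) hk2) (by positivity)
        _ ≤ 2 ^ (2 * t) := hlt
        _ = 2 ^ t * 2 ^ t := by rw [two_mul, pow_add]
    by_contra hcon
    push Not at hcon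
    exact absurd (Nat.mul_le_mul hcon.le hcon.le) (not_le.mpr h2)
  refine ⟨k, mem_range.mpr hkt, p, ?_, hp2, hk2, ?_⟩
  · simp only [prs, mem_filter, mem_Ioc]
    exact ⟨⟨hpy, hpt⟩, hp⟩
  · rw [pow_two]
    exact hpd

open Classical in
lemma card_not_good_le (y t M : ℕ) (hM : Q y * (2 * M) ≤ 2 ^ (2 * t)) :
    (((range M).filter (fun j => ¬ Good (Q y * (2 * j + 1)))).card : ℝ) ≤
      (2 * t : ℝ) * (M * ∑ p ∈ prs y (2 ^ t), (1 : ℝ) / (p : ℝ) ^ 2 + 2 ^ t) := by
  have h1 : (range M).filter (fun j => ¬ Good (Q y * (2 * j + 1))) ⊆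
      (range (2 * t)).biUnion (fun k => ((prs y (2 ^ t)).filter (fun p => p ≠ 2)).biUnion
        (fun p => (range M).filter (fun j => Bad y p k j))) := by
    intro j hj
    rw [mem_filter, mem_range] at hj
    have hlt : Q y * (2 * j + 1) ≤ 2 ^ (2 * t) :=
      (Nat.mul_le_mul_left _ (by omega)).trans hM
    obtain ⟨k, hk, p, hp, hp2, hb⟩ := exists_bad hlt hj.2
    rw [mem_biUnion]
    refine ⟨k, hk, ?_⟩
    rw [mem_biUnion]
    refine ⟨p, mem_filter.mpr ⟨hp, hp2⟩, ?_⟩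
    rw [mem_filter, mem_range]
    exact ⟨hj.1, hb⟩
  have h2 : ∀ k ∈ range (2 * t), ((((prs y (2 ^ t)).filter (fun p => p ≠ 2)).biUnion
        (fun p => (range M).filter (fun j => Bad y p k j))).card : ℝ) ≤
        M * ∑ p ∈ prs y (2 ^ t), (1 : ℝ) / (p : ℝ) ^ 2 + 2 ^ t := by
    intro k _
    have e1 : (((prs y (2 ^ t)).filter (fun p => p ≠ 2)).biUnion
        (fun p => (range M).filter (fun j => Bad y p k j))).card ≤
        ∑ p ∈ (prs y (2 ^ t)).filter (fun p => p ≠ 2),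
          ((range M).filter (fun j => Bad y p k j)).card := card_biUnion_le
    have e2 : ((∑ p ∈ (prs y (2 ^ t)).filter (fun p => p ≠ 2),
          ((range M).filter (fun j => Bad y p k j)).card : ℕ) : ℝ) ≤
        ∑ p ∈ (prs y (2 ^ t)).filter (fun p => p ≠ 2), ((M : ℝ) * (1 / (p : ℝ) ^ 2) + 1) := by
      push_cast
      apply sum_le_sum
      intro p hp
      simp only [prs, mem_filter, mem_Ioc] at hp
      have h3 := card_bad_le (y := y) hp.1.2 hp.1.1.1 hp.2 k M
      have h4 : ((M / p ^ 2 + 1 : ℕ) : ℝ) ≤ (M : ℝ) * (1 / (p : ℝ) ^ 2) + 1 := by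
        push_cast
        have := @Nat.cast_div_le ℝ _ _ _ M (p ^ 2)
        push_cast at this
        rw [mul_one_div]
        linarith
      exact le_trans (by exact_mod_cast h3) h4
    have e3 : ∑ p ∈ (prs y (2 ^ t)).filter (fun p => p ≠ 2), ((M : ℝ) * (1 / (p : ℝ) ^ 2) + 1) ≤
        ∑ p ∈ prs y (2 ^ t), ((M : ℝ) * (1 / (p : ℝ) ^ 2) + 1) := by
      apply sum_le_sum_of_subset_of_nonneg (filter_subset _ _)
      intro p _ _
      positivity
    have e4 : ∑ p ∈ prs y (2 ^ t), ((M : ℝ) * (1 / (p : ℝ) ^ 2) + 1) =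
        M * ∑ p ∈ prs y (2 ^ t), (1 : ℝ) / (p : ℝ) ^ 2 + (prs y (2 ^ t)).card := by
      rw [sum_add_distrib, ← mul_sum]
      simp
    have e5 : ((prs y (2 ^ t)).card : ℝ) ≤ 2 ^ t := by
      have : (prs y (2 ^ t)).card ≤ 2 ^ t := by
        unfold prs
        refine (card_filter_le _ _).trans ?_
        rw [Nat.card_Ioc]
        exact Nat.sub_le _ _
      exact_mod_cast this
    calc _ ≤ ((∑ p ∈ (prs y (2 ^ t)).filter (fun p => p ≠ 2),
          ((range M).filter (fun j => Bad y p k j)).card : ℕ) : ℝ) := by exact_mod_cast e1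
      _ ≤ _ := e2
      _ ≤ _ := e3
      _ = _ := e4
      _ ≤ _ := by linarith
  have h3 := (card_le_card h1).trans card_biUnion_le
  calc _ ≤ ((∑ k ∈ range (2 * t), (((prs y (2 ^ t)).filter (fun p => p ≠ 2)).biUnion
        (fun p => (range M).filter (fun j => Bad y p k j))).card : ℕ) : ℝ) := by exact_mod_cast h3
    _ ≤ ∑ k ∈ range (2 * t), (M * ∑ p ∈ prs y (2 ^ t), (1 : ℝ) / (p : ℝ) ^ 2 + 2 ^ t) := by
        push_cast
        exact sum_le_sum h2
    _ = _ := by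
        rw [sum_const, card_range, nsmul_eq_mul]
        push_cast
        ring

/-- There are infinitely many integers `n ≥ 3` such that `n - 2 ^ k` is squarefree for every
`k ≥ 1` with `2 ^ k < n`. -/
theorem result :
    {n : ℕ | 3 ≤ n ∧ ∀ k : ℕ, 1 ≤ k → 2 ^ k < n → Squarefree (n - 2 ^ k)}.Infinite := by
  classical
  rw [Set.infinite_iff_exists_gt]
  intro B
  obtain ⟨y₀, hy₀⟩ := primeCounting_le_mul (1 / 128) (by norm_num)
  set y := max y₀ (B + 4) with hy
  have hyB : B + 4 ≤ y := le_max_right _ _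
  have hπ : ∀ n : ℕ, y ≤ n → (Nat.primeCounting n : ℝ) ≤ 1 / 128 * n :=
    fun n hn => hy₀ n ((le_max_left _ _).trans hn)
  set M := 2 ^ (6 * y - 1) with hM
  have hMy : 2 * M = 2 ^ (6 * y) := by
    rw [hM, ← pow_succ']
    congr 1
    omega
  have hQM : Q y * (2 * M) ≤ 2 ^ (2 * (4 * y)) := by
    rw [hMy]
    calc Q y * 2 ^ (6 * y) ≤ 4 ^ y * 2 ^ (6 * y) := Nat.mul_le_mul_right _ (Q_le y)
      _ = 2 ^ (2 * (4 * y)) := by
        rw [show (4 : ℕ) = 2 ^ 2 by norm_num, ← pow_mul, ← pow_add]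
        congr 1
        ring
  have hbad := card_not_good_le y (4 * y) M hQM
  have hy1 : 1 ≤ y := by omega
  have hy0 : (0 : ℝ) < y := by exact_mod_cast hy1
  have hsum : ∑ p ∈ prs y (2 ^ (4 * y)), (1 : ℝ) / (p : ℝ) ^ 2 ≤ 1 / 32 / y := by
    have h1 := sum_sq_le (δ := 1 / 128) (by norm_num) hy1 hπ (4 * y)
    have h2 : prs y (2 ^ (4 * y)) ⊆ prs y (2 ^ (4 * y) * y) := by
      intro p hp
      simp only [prs, mem_filter, mem_Ioc] at hp ⊢
      exact ⟨⟨hp.1.1, hp.1.2.trans (Nat.le_mul_of_pos_right _ (by omega))⟩, hp.2⟩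
    have h3 : ∑ p ∈ prs y (2 ^ (4 * y)), (1 : ℝ) / (p : ℝ) ^ 2 ≤
        ∑ p ∈ prs y (2 ^ (4 * y) * y), (1 : ℝ) / (p : ℝ) ^ 2 := by
      apply sum_le_sum_of_subset_of_nonneg h2
      intro p _ _
      positivity
    refine h3.trans (h1.trans ?_)
    have h4 : (1 : ℝ) - 1 / 2 ^ (4 * y) ≤ 1 := by
      have : (0 : ℝ) < 1 / 2 ^ (4 * y) := by positivity
      linarith
    calc 4 * (1 / 128 : ℝ) / y * (1 - 1 / 2 ^ (4 * y)) ≤ 4 * (1 / 128 : ℝ) / y * 1 := by
          apply mul_le_mul_of_nonneg_left h4 (by positivity)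
      _ = _ := by ring
  have hMpos : (0 : ℝ) < M := by positivity
  have hbad2 : (((range M).filter (fun j => ¬ Good (Q y * (2 * j + 1)))).card : ℝ) ≤
      M / 4 + 8 * y * 2 ^ (4 * y) := by
    refine hbad.trans ?_
    push_cast
    have h1 : (2 * (4 * y) : ℝ) * (M * ∑ p ∈ prs y (2 ^ (4 * y)), (1 : ℝ) / (p : ℝ) ^ 2) ≤
        (2 * (4 * y) : ℝ) * (M * (1 / 32 / y)) := by
      apply mul_le_mul_of_nonneg_left _ (by positivity)
      exact mul_le_mul_of_nonneg_left hsum hMpos.le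
    have h2 : (2 * (4 * y) : ℝ) * (M * (1 / 32 / y)) = M / 4 := by
      field_simp
      ring
    rw [mul_add]
    linarith
  -- `64 y ≤ 4 ^ y`
  have h64 : 64 * y ≤ 2 ^ (2 * y) := by
    have : ∀ n : ℕ, 64 * (n + 4) ≤ 2 ^ (2 * (n + 4)) := by
      intro n
      induction n with
      | zero => norm_num
      | succ n ih =>
        have e : 2 ^ (2 * (n + 1 + 4)) = 4 * 2 ^ (2 * (n + 4)) := by
          rw [show 2 * (n + 1 + 4) = 2 * (n + 4) + 2 by ring, pow_add]
          ring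
        omega
    have h := this (y - 4)
    rwa [Nat.sub_add_cancel (by omega)] at h
  have hM2 : (8 * y * 2 ^ (4 * y) : ℕ) * 4 ≤ M := by
    have h1 : 64 * y * 2 ^ (4 * y) ≤ 2 * M := by
      rw [hMy]
      calc 64 * y * 2 ^ (4 * y) ≤ 2 ^ (2 * y) * 2 ^ (4 * y) := Nat.mul_le_mul_right _ h64
        _ = 2 ^ (6 * y) := by rw [← pow_add]; congr 1; ring
    have h2 : (8 * y * 2 ^ (4 * y)) * 4 * 2 = 64 * y * 2 ^ (4 * y) := by ring
    omega
  have hM3 : (8 * y * 2 ^ (4 * y) : ℝ) ≤ M / 4 := by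
    have : ((8 * y * 2 ^ (4 * y) * 4 : ℕ) : ℝ) ≤ M := by exact_mod_cast hM2
    push_cast at this
    linarith
  have hBM : B + 1 < M / 4 := by
    have h1 : 8 * y * 1 * 4 ≤ M :=
      (Nat.mul_le_mul_right 4 (Nat.mul_le_mul_left (8 * y) Nat.one_le_two_pow)).trans hM2
    clear_value M y
    omega
  -- a good `j > B`
  by_contra hcon
  push Not at hcon
  have hall : (range M) ⊆ (range (B + 1)) ∪
      (range M).filter (fun j => ¬ Good (Q y * (2 * j + 1))) := by
    intro j hj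
    rw [mem_union, mem_filter]
    by_cases hjB : j < B + 1
    · exact Or.inl (mem_range.mpr hjB)
    · refine Or.inr ⟨hj, fun hg => ?_⟩
      have h1 : B < Q y * (2 * j + 1) := by
        have := Nat.mul_le_mul_right (2 * j + 1) (Q_pos y)
        omega
      have h2 : 3 ≤ Q y * (2 * j + 1) := by
        have := Nat.mul_le_mul_right (2 * j + 1) (Q_pos y)
        omega
      exact absurd h1 (not_lt.mpr (hcon _ ⟨h2, hg⟩))
  have hcard := (card_le_card hall).trans (card_union_le _ _)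
  rw [card_range, card_range] at hcard
  have hcard' : (M : ℝ) ≤ (B + 1 : ℕ) +
      (((range M).filter (fun j => ¬ Good (Q y * (2 * j + 1)))).card : ℝ) := by
    exact_mod_cast hcard
  have hBM' : ((B + 1 : ℕ) : ℝ) < M / 4 := by
    have h1 : ((B + 1 : ℕ) : ℝ) < ((M / 4 : ℕ) : ℝ) := by exact_mod_cast hBM
    have h2 := @Nat.cast_div_le ℝ _ _ _ M 4
    push_cast at h2 h1 ⊢
    linarith
  linarith

end Pool.Agent.Results.MP_fcd74d_nt.InfinitelyManyGood
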